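import Mathlib

/-!
# Circulant determinants and sine transforms over a field with a primitive additive character
-/

namespace Pool.Agent.V11294.Leg

open Finset Matrix

/-- a sum over `ZMod n` as a sum over a range -/
theorem prod_zmod {α : Type*} [CommMonoid α] (n : ℕ) [NeZero n] (G : ZMod n → α) :
    ∏ x, G x = ∏ i ∈ range n, G (i : ZMod n) := by
  refine prod_bij' (fun x _ => x.val) (fun i _ => (i : ZMod n)) ?_ ?_ ?_ ?_ ?_
  · intro x _; exact mem_range.2 (ZMod.val_lt x)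
  · intro i _; exact mem_univ _
  · intro x _; simp
  · intro i hi; exact ZMod.val_cast_of_lt (mem_range.1 hi)
  · intro x _; simp

/-- pairing `b` with `-b` in `ZMod (2 (m + 1))` -/
theorem prod_pairing {α : Type*} [CommMonoid α] (m : ℕ) (G : ZMod (2 * (m + 1)) → α) :
    ∏ x, G x = G 0 * G ((m + 1 : ℕ) : ZMod (2 * (m + 1))) *
      ∏ b ∈ range m, (G ((b + 1 : ℕ) : ZMod (2 * (m + 1))) * G (-((b + 1 : ℕ) : ZMod (2 * (m + 1))))) := by
  rw [prod_zmod]
  have e : range (2 * (m + 1)) = range ((m + 1) + (m + 1)) := by rw [two_mul]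
  rw [e, prod_range_add, prod_range_succ', prod_range_succ', prod_mul_distrib]
  have e2 : ∏ i ∈ range m, G (((m + 1 + (i + 1) : ℕ)) : ZMod (2 * (m + 1))) =
      ∏ b ∈ range m, G (-((b + 1 : ℕ) : ZMod (2 * (m + 1)))) := by
    refine prod_nbij' (fun i => m - 1 - i) (fun i => m - 1 - i) ?_ ?_ ?_ ?_ ?_
    · intro i hi; simp only [mem_range] at hi ⊢; omega
    · intro i hi; simp only [mem_range] at hi ⊢; omega
    · intro i hi; simp only [mem_range] at hi; omega
    · intro i hi; simp only [mem_range] at hi; omega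
    · intro i hi
      rw [mem_range] at hi
      congr 1
      have h : (((m + 1 + (i + 1) + (m - 1 - i + 1) : ℕ)) : ZMod (2 * (m + 1))) = 0 := by
        have : m + 1 + (i + 1) + (m - 1 - i + 1) = 2 * (m + 1) := by omega
        rw [this]
        exact ZMod.natCast_self _
      rw [Nat.cast_add] at h
      exact eq_neg_of_add_eq_zero_left h
  rw [e2]
  simp only [Nat.cast_zero, add_zero]
  ac_rfl

/-- a sum over `ZMod n` as a sum over a range (additive form) -/
theorem sum_zmod {α : Type*} [AddCommMonoid α] (n : ℕ) [NeZero n] (G : ZMod n → α) :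
    ∑ x, G x = ∑ i ∈ range n, G (i : ZMod n) := by
  refine sum_bij' (fun x _ => x.val) (fun i _ => (i : ZMod n)) ?_ ?_ ?_ ?_ ?_
  · intro x _; exact mem_range.2 (ZMod.val_lt x)
  · intro i _; exact mem_univ _
  · intro x _; simp
  · intro i hi; exact ZMod.val_cast_of_lt (mem_range.1 hi)
  · intro x _; simp

/-- pairing `b` with `-b` in `ZMod (2 (m + 1))` (additive form) -/
theorem sum_pairing {α : Type*} [AddCommMonoid α] (m : ℕ) (G : ZMod (2 * (m + 1)) → α) :
    ∑ x, G x = G 0 + G ((m + 1 : ℕ) : ZMod (2 * (m + 1))) +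
      ∑ b ∈ range m, (G ((b + 1 : ℕ) : ZMod (2 * (m + 1))) + G (-((b + 1 : ℕ) : ZMod (2 * (m + 1))))) := by
  rw [sum_zmod]
  have e : range (2 * (m + 1)) = range ((m + 1) + (m + 1)) := by rw [two_mul]
  rw [e, sum_range_add, sum_range_succ', sum_range_succ', sum_add_distrib]
  have e2 : ∑ i ∈ range m, G (((m + 1 + (i + 1) : ℕ)) : ZMod (2 * (m + 1))) =
      ∑ b ∈ range m, G (-((b + 1 : ℕ) : ZMod (2 * (m + 1)))) := by
    refine sum_nbij' (fun i => m - 1 - i) (fun i => m - 1 - i) ?_ ?_ ?_ ?_ ?_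
    · intro i hi; simp only [mem_range] at hi ⊢; omega
    · intro i hi; simp only [mem_range] at hi ⊢; omega
    · intro i hi; simp only [mem_range] at hi; omega
    · intro i hi; simp only [mem_range] at hi; omega
    · intro i hi
      rw [mem_range] at hi
      congr 1
      have h : (((m + 1 + (i + 1) + (m - 1 - i + 1) : ℕ)) : ZMod (2 * (m + 1))) = 0 := by
        have : m + 1 + (i + 1) + (m - 1 - i + 1) = 2 * (m + 1) := by omega
        rw [this]
        exact ZMod.natCast_self _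
      rw [Nat.cast_add] at h
      exact eq_neg_of_add_eq_zero_left h
  rw [e2]
  simp only [Nat.cast_zero, add_zero]
  ac_rfl

variable {K : Type*} [Field K]

section

variable {n : ℕ} [NeZero n] (ψ : AddChar (ZMod n) K)

/-- the Fourier transform `∑ f(k) ψ(-b k)` -/
def ft (f : ZMod n → K) (b : ZMod n) : K := ∑ k, f k * ψ (-(b * k))

theorem ortho (hψ : ψ.IsPrimitive) (b : ZMod n) : ∑ x, ψ (x * b) = if b = 0 then (n : K) else 0 := by
  rw [AddChar.sum_mulShift b hψ, ZMod.card]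
  push_cast
  rfl

theorem det_circ (hψ : ψ.IsPrimitive) (hn : (n : K) ≠ 0) (f : ZMod n → K) :
    (Matrix.of fun i j : ZMod n => f (i - j)).det = ∏ b, ft ψ f b := by
  classical
  set F : Matrix (ZMod n) (ZMod n) K := Matrix.of fun i b => ψ (i * b) with hF
  set G : Matrix (ZMod n) (ZMod n) K := Matrix.of fun b j => ψ (-(b * j)) with hG
  have h1 : F * G = (n : K) • (1 : Matrix (ZMod n) (ZMod n) K) := by
    ext i j
    rw [mul_apply]
    simp only [hF, hG, of_apply, Matrix.smul_apply, smul_eq_mul]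
    have : ∀ x : ZMod n, ψ (i * x) * ψ (-(x * j)) = ψ (x * (i - j)) := by
      intro x
      rw [← AddChar.map_add_eq_mul]
      congr 1; ring
    rw [sum_congr rfl fun x _ => this x, ortho ψ hψ, one_apply]
    by_cases h : i = j
    · simp [h]
    · simp [h, sub_eq_zero]
  have hF0 : F.det ≠ 0 := by
    intro h
    have := congrArg det h1
    rw [det_mul, h, zero_mul, det_smul, det_one, mul_one] at this
    exact (pow_ne_zero _ hn) this.symm
  have h2 : (Matrix.of fun i j : ZMod n => f (i - j)) * F = F * diagonal (ft ψ f) := by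
    ext i b
    rw [mul_apply, mul_diagonal]
    simp only [hF, of_apply, ft]
    rw [mul_sum, ← Equiv.sum_comp (Equiv.subLeft i)]
    refine sum_congr rfl fun k _ => ?_
    simp only [Equiv.subLeft_apply, sub_sub_cancel]
    rw [mul_left_comm, ← AddChar.map_add_eq_mul]
    congr 2; ring
  have h3 := congrArg det h2
  rw [det_mul, det_mul, det_diagonal, mul_comm] at h3
  exact mul_left_cancel₀ hF0 h3

/-- the transform of a shift -/
theorem ft_shift (f : ZMod n → K) (a b : ZMod n) :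
    ft ψ (fun i => f (i - a)) b = ψ (-(b * a)) * ft ψ f b := by
  unfold ft
  rw [mul_sum, ← Equiv.sum_comp (Equiv.addRight a)]
  refine sum_congr rfl fun k _ => ?_
  simp only [Equiv.coe_addRight, add_sub_cancel_right]
  rw [mul_left_comm, ← AddChar.map_add_eq_mul]
  congr 2; ring

/-- the transform of an even function is even -/
theorem ft_even (f : ZMod n → K) (hf : ∀ i, f (-i) = f i) (b : ZMod n) :
    ft ψ f (-b) = ft ψ f b := by
  unfold ft
  rw [← Equiv.sum_comp (Equiv.neg _)]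
  refine sum_congr rfl fun k _ => ?_
  simp only [Equiv.neg_apply, hf]
  congr 2; ring

end

section Sine

variable {m : ℕ} (ψ : AddChar (ZMod (2 * (m + 1))) K)

theorem half_ne : ((m + 1 : ℕ) : ZMod (2 * (m + 1))) ≠ 0 := by
  intro h
  rw [ZMod.natCast_eq_zero_iff] at h
  have := Nat.le_of_dvd (by omega) h
  omega

theorem half_char (hψ : ψ.IsPrimitive) (h2 : ((2 * (m + 1) : ℕ) : K) ≠ 0) :
    ψ ((m + 1 : ℕ) : ZMod (2 * (m + 1))) = -1 := by
  have h1 : ψ ((m + 1 : ℕ) : ZMod (2 * (m + 1))) ^ 2 = 1 := by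
    rw [sq, ← AddChar.map_add_eq_mul, ← Nat.cast_add, ← two_mul, ZMod.natCast_self, AddChar.map_zero_eq_one]
  rcases sq_eq_one_iff.1 h1 with h | h
  · exfalso
    have h3 := ortho ψ hψ ((m + 1 : ℕ) : ZMod (2 * (m + 1)))
    rw [if_neg half_ne] at h3
    have h4 : ∀ x : ZMod (2 * (m + 1)), ψ (x * ((m + 1 : ℕ) : ZMod (2 * (m + 1)))) = 1 := by
      intro x
      have : x * ((m + 1 : ℕ) : ZMod (2 * (m + 1))) = x.val • ((m + 1 : ℕ) : ZMod (2 * (m + 1))) := by
        rw [nsmul_eq_mul, ZMod.natCast_zmod_val]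
      rw [this, AddChar.map_nsmul_eq_pow, h, one_pow]
    rw [sum_congr rfl fun x _ => h4 x] at h3
    simp only [sum_const, card_univ, ZMod.card, nsmul_eq_mul, mul_one] at h3
    exact h2 h3
  · exact h

/-- the product of `(1 - ψ b) (1 - ψ (-b))` over `1 ≤ b ≤ m` -/
theorem prod_one_sub (hψ : ψ.IsPrimitive) (hprim : IsPrimitiveRoot (ψ 1) (2 * (m + 1)))
    (h2 : ((2 * (m + 1) : ℕ) : K) ≠ 0) :
    ∏ b ∈ range m, ((1 - ψ ((b + 1 : ℕ) : ZMod (2 * (m + 1)))) * (1 - ψ (-((b + 1 : ℕ) : ZMod (2 * (m + 1)))))) =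
      ((m + 1 : ℕ) : K) := by
  have hprim' : IsPrimitiveRoot (ψ 1) (2 * m + 1 + 1) := hprim
  have h3 := hprim'.prod_one_sub_pow_eq_order
  have h4 : ∏ x : ZMod (2 * (m + 1)), (if x = 0 then (1 : K) else 1 - ψ x) = ((2 * (m + 1) : ℕ) : K) := by
    rw [prod_zmod]
    have e : range (2 * (m + 1)) = range (2 * m + 1 + 1) := by congr 1
    rw [e, prod_range_succ', Nat.cast_zero, if_pos rfl, mul_one]
    rw [show ((2 * (m + 1) : ℕ) : K) = ((2 * m + 1 : ℕ) : K) + 1 by push_cast; ring, ← h3]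
    refine prod_congr rfl fun i hi => ?_
    rw [mem_range] at hi
    have hne : ((i + 1 : ℕ) : ZMod (2 * (m + 1))) ≠ 0 := by
      intro h
      rw [ZMod.natCast_eq_zero_iff] at h
      have := Nat.le_of_dvd (by omega) h
      omega
    rw [if_neg hne]
    congr 1
    rw [← AddChar.map_nsmul_eq_pow, nsmul_eq_mul, mul_one]
  rw [prod_pairing, if_pos rfl, if_neg half_ne, half_char ψ hψ h2, one_mul] at h4
  have h5 : (2 : K) ≠ 0 := by
    intro h; apply h2; push_cast; rw [h, zero_mul]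
  apply mul_left_cancel₀ h5
  have h6 : ∀ b ∈ range m, ((if ((b + 1 : ℕ) : ZMod (2 * (m + 1))) = 0 then (1 : K) else 1 - ψ ((b + 1 : ℕ) : ZMod (2 * (m + 1)))) *
      (if -((b + 1 : ℕ) : ZMod (2 * (m + 1))) = 0 then (1 : K) else 1 - ψ (-((b + 1 : ℕ) : ZMod (2 * (m + 1)))))) =
      ((1 - ψ ((b + 1 : ℕ) : ZMod (2 * (m + 1)))) * (1 - ψ (-((b + 1 : ℕ) : ZMod (2 * (m + 1)))))) := by
    intro b hb
    rw [mem_range] at hb
    have hne : ((b + 1 : ℕ) : ZMod (2 * (m + 1))) ≠ 0 := by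
      intro h
      rw [ZMod.natCast_eq_zero_iff] at h
      have := Nat.le_of_dvd (by omega) h
      omega
    rw [if_neg hne, if_neg (neg_ne_zero.2 hne)]
  rw [prod_congr rfl h6] at h4
  push_cast at h4 ⊢
  linear_combination h4

theorem two_half (x : ZMod (2 * (m + 1))) :
    -(x * ((m + 1 : ℕ) : ZMod (2 * (m + 1)))) = x * ((m + 1 : ℕ) : ZMod (2 * (m + 1))) := by
  have h : ((m + 1 : ℕ) : ZMod (2 * (m + 1))) + ((m + 1 : ℕ) : ZMod (2 * (m + 1))) = 0 := by
    rw [← Nat.cast_add, ← two_mul, ZMod.natCast_self]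
  linear_combination (-x) * h

theorem half_sum (G : ZMod (2 * (m + 1)) → K) (h0 : G 0 = 0)
    (hM : G ((m + 1 : ℕ) : ZMod (2 * (m + 1))) = 0) (hG : ∀ x, G (-x) = G x) :
    ∑ x, G x = 2 * ∑ j : Fin m, G ((j + 1 : ℕ) : ZMod (2 * (m + 1))) := by
  rw [sum_pairing, h0, hM, zero_add, zero_add, mul_sum, Fin.sum_univ_eq_sum_range
    (fun j => 2 * G ((j + 1 : ℕ) : ZMod (2 * (m + 1)))) m]
  refine sum_congr rfl fun i _ => ?_
  rw [hG]
  ring

/-- the sine kernel -/
def sn (i b : ZMod (2 * (m + 1))) : K := ψ (i * b) - ψ (-(i * b))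

theorem sn_zero_left (b : ZMod (2 * (m + 1))) : sn ψ 0 b = 0 := by simp [sn]

theorem sn_half_left (b : ZMod (2 * (m + 1))) : sn ψ ((m + 1 : ℕ) : ZMod (2 * (m + 1))) b = 0 := by
  rw [sn, mul_comm _ b, two_half, sub_self]

theorem sn_neg_left (i b : ZMod (2 * (m + 1))) : sn ψ (-i) b = - sn ψ i b := by
  rw [sn, sn, neg_mul, neg_neg, neg_sub]

theorem sn_comm (i b : ZMod (2 * (m + 1))) : sn ψ i b = sn ψ b i := by
  rw [sn, sn, mul_comm i b]

theorem sn_sum (hψ : ψ.IsPrimitive) (i k : ZMod (2 * (m + 1))) :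
    ∑ j, sn ψ j i * sn ψ j k = 2 * ((if i + k = 0 then ((2 * (m + 1) : ℕ) : K) else 0) -
      (if i - k = 0 then ((2 * (m + 1) : ℕ) : K) else 0)) := by
  have h : ∀ j : ZMod (2 * (m + 1)), sn ψ j i * sn ψ j k = ψ (j * (i + k)) + ψ (j * (-(i + k))) -
      ψ (j * (i - k)) - ψ (j * (-(i - k))) := by
    intro j
    rw [sn, sn]
    have e1 : ψ (j * (i + k)) = ψ (j * i) * ψ (j * k) := by
      rw [← AddChar.map_add_eq_mul]; congr 1; ring
    have e2 : ψ (j * (-(i + k))) = ψ (-(j * i)) * ψ (-(j * k)) := by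
      rw [← AddChar.map_add_eq_mul]; congr 1; ring
    have e3 : ψ (j * (i - k)) = ψ (j * i) * ψ (-(j * k)) := by
      rw [← AddChar.map_add_eq_mul]; congr 1; ring
    have e4 : ψ (j * (-(i - k))) = ψ (-(j * i)) * ψ (j * k) := by
      rw [← AddChar.map_add_eq_mul]; congr 1; ring
    rw [e1, e2, e3, e4]
    ring
  rw [sum_congr rfl fun j _ => h j, sum_sub_distrib, sum_sub_distrib, sum_add_distrib,
    ortho ψ hψ, ortho ψ hψ, ortho ψ hψ, ortho ψ hψ]
  simp only [neg_eq_zero]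
  ring

theorem sn_conv (e : ZMod (2 * (m + 1)) → K) (he : ∀ x, e (-x) = e x) (i b : ZMod (2 * (m + 1))) :
    ∑ j, (e (i - j) - e (i + j)) * sn ψ j b = 2 * (ft ψ e b * sn ψ i b) := by
  have a0 : ∀ c : ZMod (2 * (m + 1)), ∑ j, e (i - j) * ψ (j * c) = ft ψ e c * ψ (i * c) := by
    intro c
    rw [ft, sum_mul, ← Equiv.sum_comp (Equiv.subLeft i)]
    refine sum_congr rfl fun k _ => ?_
    simp only [Equiv.subLeft_apply, sub_sub_cancel]
    rw [mul_assoc, ← AddChar.map_add_eq_mul]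
    congr 2; ring
  have a1 := a0 b
  have a3 : ∑ j, e (i - j) * ψ (-(j * b)) = ft ψ e b * ψ (-(i * b)) := by
    have := a0 (-b)
    rw [ft_even ψ e he] at this
    simpa only [mul_neg] using this
  have a2 : ∑ j, e (i + j) * ψ (j * b) = ft ψ e b * ψ (-(i * b)) := by
    rw [← a3, ← Equiv.sum_comp (Equiv.neg _)]
    refine sum_congr rfl fun k _ => ?_
    simp only [Equiv.neg_apply, neg_mul, sub_eq_add_neg]
  have a4 : ∑ j, e (i + j) * ψ (-(j * b)) = ft ψ e b * ψ (i * b) := by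
    rw [← a1, ← Equiv.sum_comp (Equiv.neg _)]
    refine sum_congr rfl fun k _ => ?_
    simp only [Equiv.neg_apply, neg_mul, sub_eq_add_neg, neg_neg]
  have : ∀ j, (e (i - j) - e (i + j)) * sn ψ j b = e (i - j) * ψ (j * b) - e (i + j) * ψ (j * b) -
      e (i - j) * ψ (-(j * b)) + e (i + j) * ψ (-(j * b)) := by
    intro j; rw [sn]; ring
  rw [sum_congr rfl fun j _ => this j, sum_add_distrib, sum_sub_distrib, sum_sub_distrib, a1, a2, a3, a4, sn]
  ring

theorem cast_ne {b : ℕ} (hb : b < m) : ((b + 1 : ℕ) : ZMod (2 * (m + 1))) ≠ 0 := by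
  intro h
  rw [ZMod.natCast_eq_zero_iff] at h
  have := Nat.le_of_dvd (by omega) h
  omega

/-- the sine transform diagonalises `e (i - j) - e (i + j)` -/
theorem sine_det (hψ : ψ.IsPrimitive) (h2 : ((2 * (m + 1) : ℕ) : K) ≠ 0)
    (e : ZMod (2 * (m + 1)) → K) (he : ∀ x, e (-x) = e x) :
    (Matrix.of fun i j : Fin m => e (((i + 1 : ℕ) : ZMod (2 * (m + 1))) - ((j + 1 : ℕ) : ZMod (2 * (m + 1)))) -
      e (((i + 1 : ℕ) : ZMod (2 * (m + 1))) + ((j + 1 : ℕ) : ZMod (2 * (m + 1))))).det =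
      ∏ b ∈ range m, ft ψ e ((b + 1 : ℕ) : ZMod (2 * (m + 1))) := by
  have h20 : (2 : K) ≠ 0 := by
    intro h; apply h2; push_cast; rw [h, zero_mul]
  set V : Matrix (Fin m) (Fin m) K := Matrix.of fun j b =>
    sn ψ ((j + 1 : ℕ) : ZMod (2 * (m + 1))) ((b + 1 : ℕ) : ZMod (2 * (m + 1))) with hV
  have h1 : V * V = (-((2 * (m + 1) : ℕ) : K)) • (1 : Matrix (Fin m) (Fin m) K) := by
    ext i k
    rw [mul_apply]
    simp only [hV, of_apply, Matrix.smul_apply, smul_eq_mul]
    have hs := half_sum (fun j => sn ψ ((i + 1 : ℕ) : ZMod (2 * (m + 1))) j * sn ψ j ((k + 1 : ℕ) : ZMod (2 * (m + 1))))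
      (by simp only [sn_zero_left, mul_zero]) (by simp only [sn_half_left, mul_zero])
      (by intro x; rw [sn_neg_left, sn_comm, sn_neg_left, sn_comm ψ x]; ring)
    have hs2 := sn_sum ψ hψ ((i + 1 : ℕ) : ZMod (2 * (m + 1))) ((k + 1 : ℕ) : ZMod (2 * (m + 1)))
    have hs3 : ∀ j, sn ψ j ((i + 1 : ℕ) : ZMod (2 * (m + 1))) * sn ψ j ((k + 1 : ℕ) : ZMod (2 * (m + 1))) =
      sn ψ ((i + 1 : ℕ) : ZMod (2 * (m + 1))) j * sn ψ j ((k + 1 : ℕ) : ZMod (2 * (m + 1))) := by
      intro j; rw [sn_comm ψ j]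
    rw [sum_congr rfl fun j _ => hs3 j, hs] at hs2
    have hs4 := mul_left_cancel₀ h20 hs2
    rw [hs4]
    have hi := i.2
    have hk := k.2
    have n1 : ((i + 1 : ℕ) : ZMod (2 * (m + 1))) + ((k + 1 : ℕ) : ZMod (2 * (m + 1))) ≠ 0 := by
      rw [← Nat.cast_add]
      intro h
      rw [ZMod.natCast_eq_zero_iff] at h
      have := Nat.le_of_dvd (by omega) h
      omega
    rw [if_neg n1, one_apply]
    by_cases h : i = k
    · subst h; simp
    · have n2 : ((i + 1 : ℕ) : ZMod (2 * (m + 1))) - ((k + 1 : ℕ) : ZMod (2 * (m + 1))) ≠ 0 := by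
        rw [sub_ne_zero]
        intro hh
        rw [ZMod.natCast_eq_natCast_iff] at hh
        have := Nat.ModEq.eq_of_lt_of_lt hh (by omega) (by omega)
        apply h
        ext
        omega
      rw [if_neg n2, if_neg h]
      ring
  have hV0 : V.det ≠ 0 := by
    intro h
    have := congrArg det h1
    rw [det_mul, h, zero_mul, det_smul, det_one, mul_one] at this
    exact (pow_ne_zero _ (neg_ne_zero.2 h2)) this.symm
  have h3 : (Matrix.of fun i j : Fin m => e (((i + 1 : ℕ) : ZMod (2 * (m + 1))) - ((j + 1 : ℕ) : ZMod (2 * (m + 1)))) -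
      e (((i + 1 : ℕ) : ZMod (2 * (m + 1))) + ((j + 1 : ℕ) : ZMod (2 * (m + 1))))) * V =
      V * diagonal (fun b : Fin m => ft ψ e ((b + 1 : ℕ) : ZMod (2 * (m + 1)))) := by
    ext i b
    rw [mul_apply, mul_diagonal]
    simp only [hV, of_apply]
    have hs := half_sum (fun j => (e (((i + 1 : ℕ) : ZMod (2 * (m + 1))) - j) -
      e (((i + 1 : ℕ) : ZMod (2 * (m + 1))) + j)) * sn ψ j ((b + 1 : ℕ) : ZMod (2 * (m + 1))))
      (by simp only [sn_zero_left, mul_zero]) (by simp only [sn_half_left, mul_zero])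
      (by intro x; rw [sn_neg_left, sub_neg_eq_add, ← sub_eq_add_neg]; ring)
    rw [sn_conv ψ e he] at hs
    rw [← mul_left_cancel₀ h20 hs, mul_comm]
  have h4 := congrArg det h3
  rw [det_mul, det_mul, det_diagonal, mul_comm] at h4
  rw [mul_left_cancel₀ hV0 h4, Fin.prod_univ_eq_prod_range
    (fun b => ft ψ e ((b + 1 : ℕ) : ZMod (2 * (m + 1)))) m]

end Sine

/-! ### a matrix with zero row and column sums -/

theorem minor {R : Type*} [CommRing R] (m : ℕ) (Φ : Matrix (Fin (m + 1)) (Fin (m + 1)) R)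
    (hr : ∀ i, ∑ j, Φ i j = 0) (hc : ∀ j, ∑ i, Φ i j = 0) :
    (Matrix.of fun i j => Φ i j + 1).det =
      ((m + 1 : ℕ) : R) ^ 2 * (Matrix.of fun i j : Fin m => Φ i.succ j.succ).det := by
  let f : Fin (m + 1) ≃ Fin m ⊕ PUnit.{1} := (finSuccEquiv m).trans (Equiv.optionEquivSumPUnit _)
  have f1 : ∀ i : Fin m, f.symm (Sum.inl i) = i.succ := fun i => by simp [f]
  have f2 : ∀ x : PUnit.{1}, f.symm (Sum.inr x) = 0 := fun i => by simp [f]
  have r' : ∀ i, Φ i 0 = -∑ j : Fin m, Φ i j.succ := by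
    intro i
    have := hr i
    rw [Fin.sum_univ_succ] at this
    linear_combination this
  have c' : ∀ j, Φ 0 j = -∑ i : Fin m, Φ i.succ j := by
    intro j
    have := hc j
    rw [Fin.sum_univ_succ] at this
    linear_combination this
  set A : Matrix (Fin m) (Fin m) R := Matrix.of fun i j : Fin m => Φ i.succ j.succ with hA
  set B : Matrix (Fin m) PUnit.{1} R := Matrix.of fun _ _ => 1 with hB
  set C : Matrix PUnit.{1} (Fin m) R := Matrix.of fun _ _ => -1 with hC
  set V := fromBlocks (1 : Matrix (Fin m) (Fin m) R) B C (1 : Matrix PUnit.{1} PUnit.{1} R) with hV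
  have key : (Matrix.of fun i j => Φ i j + 1).submatrix f.symm f.symm =
      V * fromBlocks A 0 0 (1 : Matrix PUnit.{1} PUnit.{1} R) * Vᵀ := by
    rw [hV, fromBlocks_transpose, fromBlocks_multiply, fromBlocks_multiply]
    ext i j
    rcases i with i | i <;> rcases j with j | j
    · simp [f1, hA, hB, mul_apply]
    · simp [f1, f2, hA, hB, hC, mul_apply, r']
    · simp [f1, f2, hA, hB, hC, mul_apply, c']
    · simp [f2, hA, hB, hC, mul_apply, one_apply, c', r']
      exact sum_comm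
  have hdet : V.det = ((m + 1 : ℕ) : R) := by
    rw [hV, det_fromBlocks_one₁₁]
    simp [hB, hC, mul_apply]
    ring
  have h := congrArg det key
  rw [det_submatrix_equiv_self, det_mul, det_mul, det_transpose, hdet, det_fromBlocks_zero₂₁, det_one] at h
  rw [h]
  ring

end Pool.Agent.V11294.Leg
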