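import Mathlib
import Pool.Agent.V11294.Leg.Circ

/-!
# The even function attached to an antisymmetric sign sequence on `ZMod (2 (m + 1))`
-/

namespace Pool.Agent.V11294.Leg

open Finset Matrix

variable {m : ℕ}

/-- the sign character of `ZMod (2 (m + 1))` -/
def sg (i : ZMod (2 * (m + 1))) : ℤ := (-1) ^ i.val

theorem sg_nat (k : ℕ) : sg ((k : ℕ) : ZMod (2 * (m + 1))) = (-1) ^ k := by
  rw [sg, ZMod.val_natCast]
  have h : Function.Periodic (fun k : ℕ => (-1 : ℤ) ^ k) (2 * (m + 1)) := by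
    intro x
    simp only
    rw [pow_add, pow_mul]
    simp
  exact h.map_mod_nat k

theorem sg_eq (i : ZMod (2 * (m + 1))) : sg i = 1 ∨ sg i = -1 := by
  rw [sg]; exact neg_one_pow_eq_or ℤ _

theorem sg_add (i j : ZMod (2 * (m + 1))) : sg (i + j) = sg i * sg j := by
  have h : i + j = ((i.val + j.val : ℕ) : ZMod (2 * (m + 1))) := by
    rw [Nat.cast_add, ZMod.natCast_zmod_val, ZMod.natCast_zmod_val]
  rw [h, sg_nat, pow_add]
  rfl

theorem sg_neg (i : ZMod (2 * (m + 1))) : sg (-i) = sg i := by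
  have h := sg_add (-i) i
  rw [neg_add_cancel] at h
  have h0 : sg (0 : ZMod (2 * (m + 1))) = 1 := by simp [sg]
  rw [h0] at h
  rcases sg_eq i with h1 | h1 <;> rcases sg_eq (-i) with h2 | h2 <;> rw [h1, h2] at h <;> simp_all

theorem sg_char {K : Type*} [Field K] (ψ : AddChar (ZMod (2 * (m + 1))) K) (hψ : ψ.IsPrimitive)
    (h2 : ((2 * (m + 1) : ℕ) : K) ≠ 0) (i : ZMod (2 * (m + 1))) :
    ((sg i : ℤ) : K) = ψ (i * ((m + 1 : ℕ) : ZMod (2 * (m + 1)))) := by
  have : i * ((m + 1 : ℕ) : ZMod (2 * (m + 1))) = i.val • ((m + 1 : ℕ) : ZMod (2 * (m + 1))) := by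
    rw [nsmul_eq_mul, ZMod.natCast_zmod_val]
  rw [this, AddChar.map_nsmul_eq_pow, half_char ψ hψ h2, sg]
  push_cast; rfl

theorem exists_h (φ : ZMod (2 * (m + 1)) → ℤ) (h1 : ∀ i, φ i = 1 ∨ φ i = -1)
    (h2 : ∀ i, φ (1 - i) = - φ i) :
    ∃ h : ZMod (2 * (m + 1)) → ℤ, (∀ i, h (-i) = h i) ∧ (∀ i, φ i = h (i - 1) - h i) ∧
      ∀ i, (4 : ℤ) ∣ 2 * h i - 1 + sg i := by
  have hsum : ∑ i, φ i = 0 := by
    have : ∑ i, φ i = - ∑ i, φ i := by
      rw [← sum_neg_distrib, ← Equiv.sum_comp (Equiv.subLeft 1)]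
      exact sum_congr rfl fun i _ => by simpa using h2 i
    linarith
  let H : ℕ → ℤ := fun k => -∑ j ∈ range k, φ ((j + 1 : ℕ) : ZMod (2 * (m + 1)))
  have hper : Function.Periodic H (2 * (m + 1)) := by
    intro k
    simp only [H]
    rw [sum_range_add]
    have : ∑ x ∈ range (2 * (m + 1)), φ ((k + x + 1 : ℕ) : ZMod (2 * (m + 1))) = 0 := by
      rw [← hsum, ← Equiv.sum_comp (Equiv.addRight ((k + 1 : ℕ) : ZMod (2 * (m + 1)))), sum_zmod]
      refine sum_congr rfl fun x _ => ?_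
      simp only [Equiv.coe_addRight]
      congr 1
      push_cast; ring
    rw [this, add_zero]
  let h : ZMod (2 * (m + 1)) → ℤ := fun i => H i.val
  have hn : ∀ k : ℕ, h ((k : ℕ) : ZMod (2 * (m + 1))) = H k := by
    intro k
    simp only [h]
    rw [ZMod.val_natCast]
    exact hper.map_mod_nat k
  have hrec : ∀ i, φ i = h (i - 1) - h i := by
    intro i
    have e1 : i - 1 = (((i - 1).val : ℕ) : ZMod (2 * (m + 1))) := by rw [ZMod.natCast_zmod_val]
    have e2 : i = (((i - 1).val + 1 : ℕ) : ZMod (2 * (m + 1))) := by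
      rw [Nat.cast_add, ← e1]; simp
    have e3 : h i = H ((i - 1).val + 1) := by
      conv_lhs => rw [e2]
      rw [hn]
    have e4 : h (i - 1) = H ((i - 1).val) := rfl
    rw [e3, e4]
    simp only [H]
    rw [sum_range_succ, ← e2]
    ring
  refine ⟨h, ?_, hrec, ?_⟩
  · have key : ∀ k : ℕ, h (-((k : ℕ) : ZMod (2 * (m + 1)))) = h ((k : ℕ) : ZMod (2 * (m + 1))) := by
      intro k
      induction k with
      | zero => simp
      | succ k ih =>
        have a1 := hrec ((k + 1 : ℕ) : ZMod (2 * (m + 1)))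
        have a2 := hrec (-((k : ℕ) : ZMod (2 * (m + 1))))
        have a3 := h2 ((k + 1 : ℕ) : ZMod (2 * (m + 1)))
        have b1 : ((k + 1 : ℕ) : ZMod (2 * (m + 1))) - 1 = (k : ZMod (2 * (m + 1))) := by push_cast; ring
        have b2 : -(k : ZMod (2 * (m + 1))) - 1 = -((k + 1 : ℕ) : ZMod (2 * (m + 1))) := by push_cast; ring
        have b3 : 1 - ((k + 1 : ℕ) : ZMod (2 * (m + 1))) = -(k : ZMod (2 * (m + 1))) := by push_cast; ring
        rw [b1] at a1
        rw [b2] at a2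
        rw [b3] at a3
        linarith
    intro i
    have := key i.val
    rwa [ZMod.natCast_zmod_val] at this
  · have key : ∀ k : ℕ, (4 : ℤ) ∣ 2 * H k - 1 + (-1) ^ k := by
      intro k
      induction k with
      | zero => simp [H]
      | succ k ih =>
        have e : H (k + 1) = H k - φ ((k + 1 : ℕ) : ZMod (2 * (m + 1))) := by
          simp only [H]; rw [sum_range_succ]; ring
        rw [e, pow_succ]
        rcases h1 ((k + 1 : ℕ) : ZMod (2 * (m + 1))) with h3 | h3 <;>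
          rcases neg_one_pow_eq_or ℤ k with h4 | h4 <;> rw [h3] <;> rw [h4] at ih ⊢ <;> omega
    intro i
    have := key i.val
    rw [sg]
    exact this

/-- the even function `e` -/
theorem exists_e (φ : ZMod (2 * (m + 1)) → ℤ) (h1 : ∀ i, φ i = 1 ∨ φ i = -1)
    (h2 : ∀ i, φ (1 - i) = - φ i) :
    ∃ e : ZMod (2 * (m + 1)) → ℤ, (∀ i, e (-i) = e i) ∧
      ∀ (K : Type) [Field K] (ψ : AddChar (ZMod (2 * (m + 1))) K), ψ.IsPrimitive →
        ((2 * (m + 1) : ℕ) : K) ≠ 0 → ∀ b : ZMod (2 * (m + 1)), b ≠ 0 →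
        b ≠ ((m + 1 : ℕ) : ZMod (2 * (m + 1))) →
        ft ψ (fun i => (φ i : K)) b = (ψ (-b) - 1) * (2 * ft ψ (fun i => (e i : K)) b) := by
  obtain ⟨h, a1, a2, a3⟩ := exists_h φ h1 h2
  choose e he using a3
  refine ⟨e, ?_, ?_⟩
  · intro i
    have := he i
    have := he (-i)
    rw [a1, sg_neg] at this
    omega
  · intro K _ ψ hψ hK b hb0 hbM
    have h20 : (2 : K) ≠ 0 := by
      intro h; apply hK; push_cast; rw [h, zero_mul]
    have s1 : ft ψ (fun i => (φ i : K)) b = (ψ (-b) - 1) * ft ψ (fun i => (h i : K)) b := by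
      have := ft_shift ψ (fun i => (h i : K)) 1 b
      rw [mul_one] at this
      rw [sub_mul, ← this, one_mul]
      unfold ft
      rw [← sum_sub_distrib]
      refine sum_congr rfl fun k _ => ?_
      beta_reduce
      rw [a2 k]
      push_cast
      ring
    rw [s1]
    congr 1
    have s2 : ∑ k, ψ (-(b * k)) = 0 := by
      have := ortho ψ hψ (-b)
      rw [if_neg (neg_ne_zero.2 hb0)] at this
      rw [← this]
      exact sum_congr rfl fun k _ => by congr 1; ring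
    have s3 : ∑ k, ((sg k : ℤ) : K) * ψ (-(b * k)) = 0 := by
      have := ortho ψ hψ (((m + 1 : ℕ) : ZMod (2 * (m + 1))) - b)
      rw [if_neg (sub_ne_zero.2 (Ne.symm hbM))] at this
      rw [← this]
      refine sum_congr rfl fun k _ => ?_
      rw [sg_char ψ hψ hK, ← AddChar.map_add_eq_mul]
      congr 1; ring
    have s4 : 4 * ft ψ (fun i => (e i : K)) b = 2 * ft ψ (fun i => (h i : K)) b := by
      have : ∀ k, 4 * ((e k : K) * ψ (-(b * k))) = 2 * ((h k : K) * ψ (-(b * k))) - ψ (-(b * k)) +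
          ((sg k : ℤ) : K) * ψ (-(b * k)) := by
        intro k
        have hk : ((2 * h k - 1 + sg k : ℤ) : K) = ((4 * e k : ℤ) : K) := by rw [he k]
        push_cast at hk
        linear_combination (-ψ (-(b * k))) * hk
      unfold ft
      rw [mul_sum, sum_congr rfl fun k _ => this k, sum_add_distrib, sum_sub_distrib, s2, s3, ← mul_sum]
      ring
    apply mul_left_cancel₀ h20
    linear_combination (-1 : K) * s4

/-- the matrix `e (i - j) - e (i + j)` -/
def EM (e : ZMod (2 * (m + 1)) → ℤ) : Matrix (Fin m) (Fin m) ℤ :=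
  Matrix.of fun i j : Fin m => e (((i + 1 : ℕ) : ZMod (2 * (m + 1))) - ((j + 1 : ℕ) : ZMod (2 * (m + 1)))) -
      e (((i + 1 : ℕ) : ZMod (2 * (m + 1))) + ((j + 1 : ℕ) : ZMod (2 * (m + 1))))

theorem EM_det {K : Type} [Field K] (ψ : AddChar (ZMod (2 * (m + 1))) K) (hψ : ψ.IsPrimitive)
    (h2 : ((2 * (m + 1) : ℕ) : K) ≠ 0) (e : ZMod (2 * (m + 1)) → ℤ) (he : ∀ i, e (-i) = e i) :
    (((EM e).det : ℤ) : K) = ∏ b ∈ range m, ft ψ (fun i => (e i : K)) ((b + 1 : ℕ) : ZMod (2 * (m + 1))) := by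
  rw [← sine_det ψ hψ h2 (fun i => (e i : K)) (fun i => by rw [he])]
  have := (Int.castRingHom K).map_det (EM e)
  rw [eq_intCast] at this
  rw [this]
  congr 1
  ext i j
  simp [EM]

/-- the evaluation of the minor -/
theorem det_eq (φ : ZMod (2 * (m + 1)) → ℤ)
    (h2 : ∀ i, φ (1 - i) = - φ i) (e : ZMod (2 * (m + 1)) → ℤ) (he : ∀ i, e (-i) = e i)
    (hft : ∀ (K : Type) [Field K] (ψ : AddChar (ZMod (2 * (m + 1))) K), ψ.IsPrimitive →
        ((2 * (m + 1) : ℕ) : K) ≠ 0 → ∀ b : ZMod (2 * (m + 1)), b ≠ 0 →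
        b ≠ ((m + 1 : ℕ) : ZMod (2 * (m + 1))) →
        ft ψ (fun i => (φ i : K)) b = (ψ (-b) - 1) * (2 * ft ψ (fun i => (e i : K)) b))
    (a : ZMod (2 * (m + 1))) (σ : Fin (2 * m + 1 + 1) ≃ ZMod (2 * (m + 1))) :
    2 * (Matrix.of fun i j : Fin (2 * m + 1) => φ (σ i.succ - σ j.succ - a)).det =
      4 ^ m * (EM e).det ^ 2 * ∑ i, sg i * φ (i - a) := by
  have hsum : ∑ i, φ (i - a) = 0 := by
    have h0 : ∑ i, φ i = - ∑ i, φ i := by
      rw [← sum_neg_distrib, ← Equiv.sum_comp (Equiv.subLeft 1)]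
      exact sum_congr rfl fun i _ => by simpa using h2 i
    rw [show ∑ i, φ (i - a) = ∑ i, φ i from Equiv.sum_comp (Equiv.subRight a) φ]
    linarith
  have hmin := minor (2 * m + 1) (Matrix.of fun i j : Fin (2 * m + 1 + 1) => φ (σ i - σ j - a))
    (fun i => by
      simp only [of_apply]
      rw [← hsum, ← Equiv.sum_comp (Equiv.subLeft (σ i)) (fun x => φ (x - a)), ← Equiv.sum_comp σ]
      rfl)
    (fun j => by
      simp only [of_apply]
      rw [← hsum, ← Equiv.sum_comp (Equiv.subRight (σ j)) (fun x => φ (x - a)), ← Equiv.sum_comp σ]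
      rfl)
  simp only [of_apply] at hmin
  -- pass to the complex numbers
  have hζ := Complex.isPrimitiveRoot_exp (2 * (m + 1)) (by omega)
  set ζ : ℂ := Complex.exp (2 * Real.pi * Complex.I / ((2 * (m + 1) : ℕ) : ℂ)) with hζd
  set ψ : AddChar (ZMod (2 * (m + 1))) ℂ := AddChar.zmodChar (2 * (m + 1)) hζ.pow_eq_one with hψd
  have hψ : ψ.IsPrimitive := AddChar.zmodChar_primitive_of_primitive_root (2 * (m + 1)) hζ
  have hψ1 : ψ 1 = ζ := by
    have := AddChar.zmodChar_apply' hζ.pow_eq_one 1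
    simpa using this
  have hprim : IsPrimitiveRoot (ψ 1) (2 * (m + 1)) := by rw [hψ1]; exact hζ
  have hK : ((2 * (m + 1) : ℕ) : ℂ) ≠ 0 := by
    rw [Nat.cast_ne_zero]; omega
  have hdetC : (((Matrix.of fun i j : Fin (2 * m + 1 + 1) => φ (σ i - σ j - a) + 1).det : ℤ) : ℂ) =
      ∏ b, ft ψ (fun i => (φ (i - a) : ℂ) + 1) b := by
    rw [← det_circ ψ hψ hK]
    have := (Int.castRingHom ℂ).map_det (Matrix.of fun i j : Fin (2 * m + 1 + 1) => φ (σ i - σ j - a) + 1)
    rw [eq_intCast] at this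
    rw [this, ← det_submatrix_equiv_self σ]
    congr 1
    ext i j
    simp
  have hb : ∀ b, ft ψ (fun i => (φ (i - a) : ℂ) + 1) b = ft ψ (fun i => (φ (i - a) : ℂ)) b +
      (if b = 0 then ((2 * (m + 1) : ℕ) : ℂ) else 0) := by
    intro b
    unfold ft
    have := ortho ψ hψ (-b)
    simp only [neg_eq_zero] at this
    rw [← this, ← sum_add_distrib]
    refine sum_congr rfl fun k _ => ?_
    rw [add_mul, one_mul]
    congr 2; ring
  have h0 : ft ψ (fun i => (φ (i - a) : ℂ)) 0 = 0 := by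
    unfold ft
    simp only [zero_mul, neg_zero, AddChar.map_zero_eq_one, mul_one]
    exact_mod_cast hsum
  have hM : ft ψ (fun i => (φ (i - a) : ℂ)) ((m + 1 : ℕ) : ZMod (2 * (m + 1))) =
      ((∑ i, sg i * φ (i - a) : ℤ) : ℂ) := by
    unfold ft
    rw [Int.cast_sum]
    refine sum_congr rfl fun k _ => ?_
    rw [Int.cast_mul, sg_char ψ hψ hK, mul_comm]
    congr 2
    rw [mul_comm _ k, two_half]
  rw [prod_pairing, hb, hb, h0, if_pos rfl, if_neg half_ne, hM] at hdetC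
  have hpair : ∀ b ∈ range m, ft ψ (fun i => (φ (i - a) : ℂ) + 1) ((b + 1 : ℕ) : ZMod (2 * (m + 1))) *
      ft ψ (fun i => (φ (i - a) : ℂ) + 1) (-((b + 1 : ℕ) : ZMod (2 * (m + 1)))) =
      (4 * ((1 - ψ ((b + 1 : ℕ) : ZMod (2 * (m + 1)))) * (1 - ψ (-((b + 1 : ℕ) : ZMod (2 * (m + 1))))))) *
      (ft ψ (fun i => (e i : ℂ)) ((b + 1 : ℕ) : ZMod (2 * (m + 1)))) ^ 2 := by
    intro b hbm
    rw [mem_range] at hbm
    have n0 := cast_ne hbm
    have nM : ((b + 1 : ℕ) : ZMod (2 * (m + 1))) ≠ ((m + 1 : ℕ) : ZMod (2 * (m + 1))) := by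
      intro hh
      rw [ZMod.natCast_eq_natCast_iff] at hh
      have := Nat.ModEq.eq_of_lt_of_lt hh (by omega) (by omega)
      omega
    have nM' : -((b + 1 : ℕ) : ZMod (2 * (m + 1))) ≠ ((m + 1 : ℕ) : ZMod (2 * (m + 1))) := by
      intro hh
      apply nM
      have := two_half (1 : ZMod (2 * (m + 1)))
      rw [one_mul] at this
      rw [← this, ← hh, neg_neg]
    rw [hb, hb, if_neg n0, if_neg (neg_ne_zero.2 n0), add_zero, add_zero,
      ft_shift ψ (fun i => (φ i : ℂ)), ft_shift ψ (fun i => (φ i : ℂ)), hft ℂ ψ hψ hK _ n0 nM,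
      hft ℂ ψ hψ hK _ (neg_ne_zero.2 n0) nM', neg_neg, ft_even ψ (fun i => (e i : ℂ)) (fun i => by rw [he])]
    have hc : ψ (-(((b + 1 : ℕ) : ZMod (2 * (m + 1))) * a)) * ψ (-(-((b + 1 : ℕ) : ZMod (2 * (m + 1))) * a)) = 1 := by
      rw [← AddChar.map_add_eq_mul]
      have : -(((b + 1 : ℕ) : ZMod (2 * (m + 1))) * a) + -(-((b + 1 : ℕ) : ZMod (2 * (m + 1))) * a) = 0 := by ring
      rw [this, AddChar.map_zero_eq_one]
    linear_combination ((ψ (-((b + 1 : ℕ) : ZMod (2 * (m + 1)))) - 1) *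
      (2 * ft ψ (fun i => (e i : ℂ)) ((b + 1 : ℕ) : ZMod (2 * (m + 1)))) *
      ((ψ (((b + 1 : ℕ) : ZMod (2 * (m + 1)))) - 1) *
      (2 * ft ψ (fun i => (e i : ℂ)) ((b + 1 : ℕ) : ZMod (2 * (m + 1)))))) * hc
  rw [prod_congr rfl hpair, prod_mul_distrib, prod_mul_distrib, prod_one_sub ψ hψ hprim hK,
    prod_const, card_range, prod_pow, ← EM_det ψ hψ hK e he] at hdetC
  rw [hmin] at hdetC
  have hfin : (((((m + 1 : ℕ) : ℤ) ^ 2 * 2) * (2 * (Matrix.of fun i j : Fin (2 * m + 1) => φ (σ i.succ - σ j.succ - a)).det) : ℤ) : ℂ) =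
      (((((m + 1 : ℕ) : ℤ) ^ 2 * 2) * (4 ^ m * (EM e).det ^ 2 * ∑ i, sg i * φ (i - a)) : ℤ) : ℂ) := by
    push_cast at hdetC ⊢
    linear_combination hdetC
  have hfin2 := Int.cast_injective hfin
  exact mul_left_cancel₀ (by positivity) hfin2

end Pool.Agent.V11294.Leg
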