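import Mathlib
import Pool.Agent.V11294.Leg.Even

/-!
# The determinant modulo `p` and the final evaluation
-/

namespace Pool.Agent.V11294.Leg

open Finset Matrix

section

variable {p m : ℕ} [Fact p.Prime]

/-- the quadratic character -/
noncomputable abbrev chi (p : ℕ) [Fact p.Prime] : MulChar (ZMod p) ℤ := quadraticChar (ZMod p)

theorem two_ne (hp : p = 4 * m + 5) : (2 : ZMod p) ≠ 0 := by
  have : ((2 : ℕ) : ZMod p) ≠ 0 := by
    rw [Ne, ZMod.natCast_eq_zero_iff]
    intro h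
    have := Nat.le_of_dvd (by norm_num) h
    omega
  exact_mod_cast this

theorem ring_char (hp : p = 4 * m + 5) : ringChar (ZMod p) ≠ 2 := by
  rw [ZMod.ringChar_zmod_n]; omega

theorem chi_pow (hp : p = 4 * m + 5) (a : ZMod p) :
    ((chi p a : ℤ) : ZMod p) = a ^ (2 * (m + 1)) := by
  have := quadraticChar_eq_pow_of_char_ne_two' (ring_char hp) a
  rw [this, ZMod.card]
  congr 1
  omega

theorem one_ne_neg_one (hp : p = 4 * m + 5) : (1 : ZMod p) ≠ -1 := by
  intro h
  apply two_ne hp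
  linear_combination h

theorem chi_one_of (hp : p = 4 * m + 5) {a : ZMod p} (ha : a ^ (2 * (m + 1)) = 1) : chi p a = 1 := by
  have h0 : a ≠ 0 := by
    rintro rfl
    rw [zero_pow (by omega)] at ha
    exact zero_ne_one ha
  rcases quadraticChar_dichotomy h0 with h | h
  · exact h
  · exfalso
    have := chi_pow hp a
    rw [ha, chi, h] at this
    exact one_ne_neg_one hp (by simpa using this.symm)

theorem chi_neg_of (hp : p = 4 * m + 5) {a : ZMod p} (ha : a ^ (2 * (m + 1)) = -1) : chi p a = -1 := by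
  have h0 : a ≠ 0 := by
    rintro rfl
    rw [zero_pow (by omega)] at ha
    exact one_ne_zero (neg_eq_zero.1 ha.symm)
  rcases quadraticChar_dichotomy h0 with h | h
  · exfalso
    have := chi_pow hp a
    rw [ha, chi, h] at this
    exact one_ne_neg_one hp (by simpa using this)
  · exact h

theorem exists_prim (hp : p = 4 * m + 5) : ∃ g : ZMod p, IsPrimitiveRoot g (2 * (2 * (m + 1))) ∧
    ∀ x : ZMod p, x ≠ 0 → ∃ k : ℕ, x = g ^ k := by
  obtain ⟨g, hg⟩ := IsCyclic.exists_generator (α := (ZMod p)ˣ)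
  refine ⟨(g : ZMod p), ?_, ?_⟩
  · have h1 : orderOf g = 2 * (2 * (m + 1)) := by
      rw [orderOf_eq_card_of_forall_mem_zpowers hg, Nat.card_eq_fintype_card, ZMod.card_units]
      omega
    rw [← h1, IsPrimitiveRoot.coe_units_iff]
    exact IsPrimitiveRoot.orderOf g
  · intro x hx
    have h1 := hg (Units.mk0 x hx)
    rw [← mem_powers_iff_mem_zpowers] at h1
    obtain ⟨k, hk⟩ := h1
    refine ⟨k, ?_⟩
    have := congrArg Units.val hk
    simpa using this.symm

theorem g_pow {g : ZMod p} (hg : IsPrimitiveRoot g (2 * (2 * (m + 1)))) : g ^ (2 * (m + 1)) = -1 := by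
  have h1 : (g ^ (2 * (m + 1))) ^ 2 = 1 := by
    rw [← pow_mul, mul_comm, hg.pow_eq_one]
  rcases sq_eq_one_iff.1 h1 with h | h
  · exfalso
    have := hg.dvd_of_pow_eq_one _ h
    have := Nat.le_of_dvd (by omega) this
    omega
  · exact h

theorem two_pow (hp : p = 4 * m + 5) : (2 : ZMod p) ^ (2 * (m + 1)) = (-1) ^ (m + 1) := by
  have h2 := ZMod.exists_sq_eq_two_iff (p := p) (by omega)
  have h3 := chi_pow hp 2
  rcases Nat.even_or_odd m with h | h
  · have hns : ¬ IsSquare (2 : ZMod p) := by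
      rw [h2]
      obtain ⟨k, hk⟩ := h
      omega
    have h4 : chi p 2 = -1 := by
      rw [chi, quadraticChar_neg_one_iff_not_isSquare]; exact hns
    rw [h4] at h3
    rw [← h3, h.add_one.neg_one_pow]; simp
  · have hs : IsSquare (2 : ZMod p) := by
      rw [h2]
      obtain ⟨k, hk⟩ := h
      omega
    have h4 : chi p 2 = 1 := by
      rw [chi, quadraticChar_one_iff_isSquare (two_ne hp)]; exact hs
    rw [h4] at h3
    rw [← h3, (Odd.add_one h).neg_one_pow]; simp

theorem four_mul (hp : p = 4 * m + 5) : (4 : ZMod p) * ((m + 1 : ℕ) : ZMod p) = -1 := by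
  have : ((4 * m + 5 : ℕ) : ZMod p) = 0 := by
    rw [← hp]; exact ZMod.natCast_self p
  push_cast at this ⊢
  linear_combination this

theorem n_ne (hp : p = 4 * m + 5) : ((2 * (m + 1) : ℕ) : ZMod p) ≠ 0 := by
  rw [Ne, ZMod.natCast_eq_zero_iff]
  intro h
  have := Nat.le_of_dvd (by omega) h
  omega

/-- `((k)!) ^ n`, which is the Legendre symbol of `k!` -/
theorem fact_sq (hp : p = 4 * m + 5) {x : ZMod p} (hx : x ≠ 0) : (x ^ (2 * (m + 1))) * (x ^ (2 * (m + 1))) = 1 := by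
  rw [← pow_add]
  have : 2 * (m + 1) + 2 * (m + 1) = p - 1 := by omega
  rw [this]
  exact ZMod.pow_card_sub_one_eq_one hx

theorem fact_ne {k : ℕ} (hk : k < p) : ((k.factorial : ℕ) : ZMod p) ≠ 0 := by
  rw [Ne, ZMod.natCast_eq_zero_iff, (Fact.out : p.Prime).dvd_factorial]
  omega

theorem fact_prod (hp : p = 4 * m + 5) (N : ℕ) (hN : 2 * N + 1 < p) :
    ∏ c ∈ range (2 * N + 1), (((c + 1).factorial : ℕ) : ZMod p) ^ (2 * (m + 1)) =
      ∏ i ∈ range (N + 1), ((2 * i + 1 : ℕ) : ZMod p) ^ (2 * (m + 1)) := by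
  induction N with
  | zero => simp
  | succ N ih =>
    rw [show 2 * (N + 1) + 1 = 2 * N + 1 + 1 + 1 by ring, prod_range_succ, prod_range_succ, ih (by omega),
      prod_range_succ _ (N + 1)]
    have e : (((2 * N + 1 + 1 + 1).factorial : ℕ) : ZMod p) =
        ((2 * (N + 1) + 1 : ℕ) : ZMod p) * (((2 * N + 1 + 1).factorial : ℕ) : ZMod p) := by
      rw [Nat.factorial_succ (2 * N + 1 + 1)]
      push_cast; ring
    rw [e, mul_pow]
    have h := fact_sq hp (fact_ne (p := p) (k := 2 * N + 1 + 1) (by omega))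
    linear_combination (∏ i ∈ range (N + 1), ((2 * i + 1 : ℕ) : ZMod p) ^ (2 * (m + 1))) *
      ((2 * (N + 1) + 1 : ℕ) : ZMod p) ^ (2 * (m + 1)) * h

theorem fact_even (E N : ℕ) : (((2 * N).factorial : ℕ) : ZMod p) ^ E =
      (∏ i ∈ range N, ((2 * i + 1 : ℕ) : ZMod p) ^ E) * ((2 : ZMod p) ^ E) ^ N *
      ((N.factorial : ℕ) : ZMod p) ^ E := by
  induction N with
  | zero => simp
  | succ N ih =>
    have e : (((2 * (N + 1)).factorial : ℕ) : ZMod p) =
        2 * ((N + 1 : ℕ) : ZMod p) * ((2 * N + 1 : ℕ) : ZMod p) * (((2 * N).factorial : ℕ) : ZMod p) := by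
      rw [show 2 * (N + 1) = 2 * N + 1 + 1 by ring, Nat.factorial_succ, Nat.factorial_succ]
      push_cast; ring
    have e2 : (((N + 1).factorial : ℕ) : ZMod p) = ((N + 1 : ℕ) : ZMod p) * ((N.factorial : ℕ) : ZMod p) := by
      rw [Nat.factorial_succ, Nat.cast_mul]
    rw [e, e2, mul_pow, mul_pow, mul_pow, ih, prod_range_succ, mul_pow, pow_succ _ N]
    ring

/-- `(((p - 1) / 2)!) ^ 2 = -1` -/
theorem fact_half (hp : p = 4 * m + 5) :
    (((2 * (m + 1)).factorial : ℕ) : ZMod p) ^ 2 = -1 := by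
  have h := ZMod.wilsons_lemma p
  have e : p - 1 = 2 * (m + 1) + 2 * (m + 1) := by omega
  rw [e, ← prod_range_add_one_eq_factorial, prod_range_add] at h
  push_cast at h
  have e2 : ∏ x ∈ range (2 * (m + 1)), ((2 : ZMod p) * ((m : ZMod p) + 1) + (x : ZMod p) + 1) =
      ∏ x ∈ range (2 * (m + 1)), ((x : ZMod p) + 1) := by
    have : ∏ x ∈ range (2 * (m + 1)), ((x : ZMod p) + 1) = ∏ x ∈ range (2 * (m + 1)), (-((x : ZMod p) + 1)) := by
      rw [prod_neg, card_range]
      simp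
    rw [this, ← prod_range_reflect]
    refine prod_congr rfl fun x hx => ?_
    rw [mem_range] at hx
    have h1 : ((2 * (m + 1) + (2 * (m + 1) - 1 - x) + 1 + (x + 1) : ℕ) : ZMod p) = 0 := by
      have : 2 * (m + 1) + (2 * (m + 1) - 1 - x) + 1 + (x + 1) = p := by omega
      rw [this]; exact ZMod.natCast_self p
    push_cast at h1 ⊢
    linear_combination h1
  rw [e2] at h
  rw [← prod_range_add_one_eq_factorial]
  push_cast
  rw [sq, h]

theorem prod_choose (hp : p = 4 * m + 5) :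
    (∏ b ∈ range m, (((2 * (m + 1)).choose (b + 1) : ℕ) : ZMod p)) ^ (2 * (m + 1)) = 1 := by
  -- `a k = (k !) ^ n`
  set a : ℕ → ZMod p := fun k => ((k.factorial : ℕ) : ZMod p) ^ (2 * (m + 1)) with ha
  have a2 : ∀ k, k < p → a k * a k = 1 := fun k hk => fact_sq hp (fact_ne hk)
  have h1 : ∏ b ∈ range m, ((((2 * (m + 1)).choose (b + 1) : ℕ) : ZMod p) ^ (2 * (m + 1)) *
      (a (b + 1) * a (2 * (m + 1) - (b + 1)))) = a (2 * (m + 1)) ^ m := by
    have : ∀ b ∈ range m, ((((2 * (m + 1)).choose (b + 1) : ℕ) : ZMod p) ^ (2 * (m + 1)) *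
      (a (b + 1) * a (2 * (m + 1) - (b + 1)))) = a (2 * (m + 1)) := by
      intro b hb
      rw [mem_range] at hb
      simp only [ha]
      rw [← mul_pow, ← mul_pow]
      congr 1
      have := Nat.choose_mul_factorial_mul_factorial (show b + 1 ≤ 2 * (m + 1) by omega)
      rw [← this]
      push_cast; ring
    rw [prod_congr rfl this]
    simp
  have h2 := fact_prod hp m (by omega)
  have h3 := fact_even (p := p) (2 * (m + 1)) (m + 1)
  rw [two_pow hp] at h3
  have h4 : a (2 * (m + 1)) = (-1) ^ (m + 1) := by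
    simp only [ha]
    rw [pow_mul, fact_half hp]
  have h5 : ∏ c ∈ range (2 * m + 1), a (c + 1) =
      (∏ b ∈ range m, (a (b + 1) * a (2 * (m + 1) - (b + 1)))) * a (m + 1) := by
    rw [show 2 * m + 1 = (m + 1) + m by ring, prod_range_add, prod_range_succ, prod_mul_distrib]
    have : ∏ x ∈ range m, a (m + 1 + x + 1) = ∏ b ∈ range m, a (2 * (m + 1) - (b + 1)) := by
      rw [← prod_range_reflect]
      refine prod_congr rfl fun x hx => ?_
      rw [mem_range] at hx
      congr 1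
      omega
    rw [this]
    ring
  have h6 : (∏ c ∈ range (2 * m + 1), a (c + 1)) = ∏ i ∈ range (m + 1), ((2 * i + 1 : ℕ) : ZMod p) ^ (2 * (m + 1)) := h2
  rw [prod_mul_distrib, prod_pow] at h1
  have h7 : a (2 * (m + 1)) = (∏ i ∈ range (m + 1), ((2 * i + 1 : ℕ) : ZMod p) ^ (2 * (m + 1))) *
      ((-1) ^ (m + 1)) ^ (m + 1) * a (m + 1) := h3
  set O := ∏ i ∈ range (m + 1), ((2 * i + 1 : ℕ) : ZMod p) ^ (2 * (m + 1)) with hO
  set Q := ∏ b ∈ range m, (a (b + 1) * a (2 * (m + 1) - (b + 1))) with hQ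
  set P := (∏ b ∈ range m, (((2 * (m + 1)).choose (b + 1) : ℕ) : ZMod p)) ^ (2 * (m + 1)) with hP
  have h8 := a2 (m + 1) (by omega)
  have h9 : Q * a (m + 1) = O := by rw [← h5, h6]
  have s1 : ((-1 : ZMod p) ^ (m + 1)) ^ (m + 1) = (-1) ^ (m + 1) := by
    rcases neg_one_pow_eq_or (ZMod p) (m + 1) with h | h
    · rw [h, one_pow]
    · rw [h, h]
  have s2 : ((-1 : ZMod p) ^ (m + 1)) * ((-1 : ZMod p) ^ (m + 1)) = 1 := by
    rw [← mul_pow]; simp
  rw [s1, h4] at h7
  rw [h4] at h1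
  -- `Q = a (m+1) O = 1`
  have h10 : O * a (m + 1) = 1 := by
    have : ((-1 : ZMod p) ^ (m + 1)) * (O * a (m + 1)) = ((-1 : ZMod p) ^ (m + 1)) * 1 := by
      linear_combination -h7
    have hne : ((-1 : ZMod p) ^ (m + 1)) ≠ 0 := by
      apply pow_ne_zero; norm_num
    exact mul_left_cancel₀ hne this
  have h11 : Q = 1 := by
    linear_combination h10 + a (m + 1) * h9 - Q * h8
  rw [h11, mul_one] at h1
  rw [h1, ← pow_mul]
  apply Even.neg_one_pow
  rw [mul_comm]
  exact Nat.even_mul_succ_self m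

theorem gsq {g : ZMod p} (hg : IsPrimitiveRoot g (2 * (2 * (m + 1)))) :
    IsPrimitiveRoot (g ^ 2) (2 * (m + 1)) := hg.pow (by omega) rfl

/-- the additive character `i ↦ g ^ (2 i)` of `ZMod (2 (m + 1))` with values in `ZMod p` -/
noncomputable def psi {g : ZMod p} (hg : IsPrimitiveRoot g (2 * (2 * (m + 1)))) :
    AddChar (ZMod (2 * (m + 1))) (ZMod p) :=
  AddChar.zmodChar (2 * (m + 1)) (gsq hg).pow_eq_one

theorem psi_prim {g : ZMod p} (hg : IsPrimitiveRoot g (2 * (2 * (m + 1)))) : (psi hg).IsPrimitive :=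
  AddChar.zmodChar_primitive_of_primitive_root (2 * (m + 1)) (gsq hg)

theorem psi_nat {g : ZMod p} (hg : IsPrimitiveRoot g (2 * (2 * (m + 1)))) (k : ℕ) :
    psi hg ((k : ℕ) : ZMod (2 * (m + 1))) = (g ^ 2) ^ k :=
  AddChar.zmodChar_apply' (gsq hg).pow_eq_one k

theorem psi_pow {g : ZMod p} (hg : IsPrimitiveRoot g (2 * (2 * (m + 1)))) (i : ZMod (2 * (m + 1))) :
    (psi hg i) ^ (2 * (m + 1)) = 1 := by
  rw [← AddChar.map_nsmul_eq_pow, nsmul_eq_mul, ZMod.natCast_self, zero_mul, AddChar.map_zero_eq_one]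

theorem chi_psi (hp : p = 4 * m + 5) {g : ZMod p} (hg : IsPrimitiveRoot g (2 * (2 * (m + 1))))
    (i : ZMod (2 * (m + 1))) : chi p (psi hg i) = 1 := chi_one_of hp (psi_pow hg i)

theorem chi_g (hp : p = 4 * m + 5) {g : ZMod p} (hg : IsPrimitiveRoot g (2 * (2 * (m + 1)))) :
    chi p g = -1 := chi_neg_of hp (g_pow hg)

theorem chi_neg_one (hp : p = 4 * m + 5) : chi p (-1) = 1 := chi_one_of hp (by simp)

/-- the sign sequence -/
noncomputable def phi {g : ZMod p} (hg : IsPrimitiveRoot g (2 * (2 * (m + 1)))) (i : ZMod (2 * (m + 1))) : ℤ :=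
  chi p (psi hg i + g)

theorem phi_eq (hp : p = 4 * m + 5) {g : ZMod p} (hg : IsPrimitiveRoot g (2 * (2 * (m + 1))))
    (i : ZMod (2 * (m + 1))) : phi hg i = 1 ∨ phi hg i = -1 := by
  apply quadraticChar_dichotomy
  intro h
  have h1 : psi hg i = (-1) * g := by linear_combination h
  have h2 := chi_psi hp hg i
  rw [h1, map_mul, chi_neg_one hp, chi_g hp hg] at h2
  norm_num at h2

theorem phi_anti (hp : p = 4 * m + 5) {g : ZMod p} (hg : IsPrimitiveRoot g (2 * (2 * (m + 1))))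
    (i : ZMod (2 * (m + 1))) : phi hg (1 - i) = - phi hg i := by
  have h1 : psi hg i * (psi hg (1 - i) + g) = g * (psi hg i + g) := by
    have e : psi hg i * psi hg (1 - i) = g ^ 2 := by
      rw [← AddChar.map_add_eq_mul, add_sub_cancel]
      have := psi_nat hg 1
      simpa using this
    linear_combination e
  have h2 := congrArg (chi p) h1
  rw [map_mul, map_mul, chi_psi hp hg, chi_g hp hg] at h2
  rw [phi, phi]
  linarith

/-- the transform of the sign sequence modulo `p` -/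
theorem phi_ft (hp : p = 4 * m + 5) {g : ZMod p} (hg : IsPrimitiveRoot g (2 * (2 * (m + 1)))) (b : ℕ)
    (hb : b < m) :
    ft (psi hg) (fun i => ((phi hg i : ℤ) : ZMod p)) ((b + 1 : ℕ) : ZMod (2 * (m + 1))) =
      ((2 * (m + 1) : ℕ) : ZMod p) * (((2 * (m + 1)).choose (b + 1) : ℕ) : ZMod p) *
        g ^ (2 * (m + 1) - (b + 1)) := by
  unfold ft
  have h1 : ∀ i : ZMod (2 * (m + 1)), ((phi hg i : ℤ) : ZMod p) * psi hg (-(((b + 1 : ℕ) : ZMod (2 * (m + 1))) * i)) =
      ∑ k ∈ range (2 * (m + 1) + 1), (g ^ (2 * (m + 1) - k) * (((2 * (m + 1)).choose k : ℕ) : ZMod p)) *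
        psi hg (i * (((k : ℕ) : ZMod (2 * (m + 1))) - ((b + 1 : ℕ) : ZMod (2 * (m + 1))))) := by
    intro i
    rw [phi, chi_pow hp, add_pow, sum_mul]
    refine sum_congr rfl fun k _ => ?_
    have e : psi hg (i * (((k : ℕ) : ZMod (2 * (m + 1))) - ((b + 1 : ℕ) : ZMod (2 * (m + 1))))) =
        psi hg i ^ k * psi hg (-(((b + 1 : ℕ) : ZMod (2 * (m + 1))) * i)) := by
      rw [← AddChar.map_nsmul_eq_pow, ← AddChar.map_add_eq_mul, nsmul_eq_mul]
      congr 1; ring
    rw [e]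
    ring
  rw [sum_congr rfl fun i _ => h1 i, sum_comm]
  have h2 : ∀ k ∈ range (2 * (m + 1) + 1), ∑ i, (g ^ (2 * (m + 1) - k) * (((2 * (m + 1)).choose k : ℕ) : ZMod p)) *
        psi hg (i * (((k : ℕ) : ZMod (2 * (m + 1))) - ((b + 1 : ℕ) : ZMod (2 * (m + 1))))) =
      if k = b + 1 then (g ^ (2 * (m + 1) - k) * (((2 * (m + 1)).choose k : ℕ) : ZMod p)) * ((2 * (m + 1) : ℕ) : ZMod p)
        else 0 := by
    intro k hk
    rw [mem_range] at hk
    rw [← mul_sum, ortho (psi hg) (psi_prim hg)]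
    by_cases h : k = b + 1
    · rw [if_pos h, if_pos (by rw [h, sub_self])]
    · rw [if_neg h, if_neg, mul_zero]
      rw [sub_eq_zero]
      intro hh
      rw [ZMod.natCast_eq_natCast_iff] at hh
      rcases Nat.lt_or_ge k (2 * (m + 1)) with h3 | h3
      · exact h (Nat.ModEq.eq_of_lt_of_lt hh h3 (by omega))
      · have h4 : k = 2 * (m + 1) := by omega
        rw [h4] at hh
        have h5 : (0 : ℕ) ≡ b + 1 [MOD 2 * (m + 1)] := by
          refine Nat.ModEq.trans ?_ hh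
          simp [Nat.ModEq]
        have := Nat.ModEq.eq_of_lt_of_lt h5 (by omega) (by omega)
        omega
  rw [sum_congr rfl h2, sum_ite_eq' (range (2 * (m + 1) + 1)) (b + 1), if_pos (mem_range.2 (by omega))]
  ring

/-- the determinant is a nonzero square modulo `p` -/
theorem t_pow (hp : p = 4 * m + 5) {g : ZMod p} (hg : IsPrimitiveRoot g (2 * (2 * (m + 1))))
    (e : ZMod (2 * (m + 1)) → ℤ) (he : ∀ i, e (-i) = e i)
    (hft : ∀ (K : Type) [Field K] (ψ : AddChar (ZMod (2 * (m + 1))) K), ψ.IsPrimitive →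
        ((2 * (m + 1) : ℕ) : K) ≠ 0 → ∀ b : ZMod (2 * (m + 1)), b ≠ 0 →
        b ≠ ((m + 1 : ℕ) : ZMod (2 * (m + 1))) →
        ft ψ (fun i => (phi hg i : K)) b = (ψ (-b) - 1) * (2 * ft ψ (fun i => (e i : K)) b)) :
    (((EM e).det : ℤ) : ZMod p) ^ (2 * (m + 1)) = 1 := by
  have hK := n_ne hp
  have hψ := psi_prim hg
  have hg0 : g ≠ 0 := hg.ne_zero (by omega)
  have hdet := EM_det (psi hg) hψ hK e he
  set w : ℕ → ZMod p := fun c => g⁻¹ ^ c - g ^ c with hw
  have hpos : ∀ c : ℕ, psi hg ((c : ℕ) : ZMod (2 * (m + 1))) = (g ^ 2) ^ c := psi_nat hg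
  have hneg : ∀ c : ℕ, psi hg (-((c : ℕ) : ZMod (2 * (m + 1)))) = (g⁻¹ ^ 2) ^ c := by
    intro c
    have h1 : psi hg (-((c : ℕ) : ZMod (2 * (m + 1)))) * (g ^ 2) ^ c = 1 := by
      rw [← hpos, ← AddChar.map_add_eq_mul, neg_add_cancel, AddChar.map_zero_eq_one]
    have h2 : (g⁻¹ ^ 2) ^ c * (g ^ 2) ^ c = 1 := by
      rw [← mul_pow, ← mul_pow, inv_mul_cancel₀ hg0, one_pow, one_pow]
    have hne : (g ^ 2) ^ c ≠ 0 := pow_ne_zero _ (pow_ne_zero _ hg0)
    exact mul_right_cancel₀ hne (h1.trans h2.symm)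
  have hinv : ∀ c : ℕ, g⁻¹ ^ c * g ^ c = 1 := by
    intro c; rw [← mul_pow, inv_mul_cancel₀ hg0, one_pow]
  -- the basic relation
  have hrel : ∀ b ∈ range m, (-((m + 1 : ℕ) : ZMod p)) * (((2 * (m + 1)).choose (b + 1) : ℕ) : ZMod p) =
      w (b + 1) * ft (psi hg) (fun i => ((e i : ℤ) : ZMod p)) ((b + 1 : ℕ) : ZMod (2 * (m + 1))) := by
    intro b hb
    rw [mem_range] at hb
    have nM : ((b + 1 : ℕ) : ZMod (2 * (m + 1))) ≠ ((m + 1 : ℕ) : ZMod (2 * (m + 1))) := by
      intro hh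
      rw [ZMod.natCast_eq_natCast_iff] at hh
      have := Nat.ModEq.eq_of_lt_of_lt hh (by omega) (by omega)
      omega
    have h1 := hft (ZMod p) (psi hg) hψ hK _ (cast_ne hb) nM
    rw [phi_ft hp hg b hb, hneg] at h1
    have h2 : g ^ (2 * (m + 1) - (b + 1)) * g ^ (b + 1) = -1 := by
      rw [← pow_add, Nat.sub_add_cancel (by omega), g_pow hg]
    have h3 : (g⁻¹ ^ 2) ^ (b + 1) * g ^ (b + 1) = g⁻¹ ^ (b + 1) := by
      have := hinv (b + 1)
      rw [← pow_mul, mul_comm 2, pow_mul]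
      rw [sq, mul_assoc, this, mul_one]
    apply mul_left_cancel₀ (two_ne hp)
    simp only [hw]
    generalize ft (psi hg) (fun i => ((e i : ℤ) : ZMod p)) ((b + 1 : ℕ) : ZMod (2 * (m + 1))) = F at h1 ⊢
    push_cast at h1 ⊢
    linear_combination g ^ (b + 1) * h1 - 2 * ((m : ZMod p) + 1) * (((2 * (m + 1)).choose (b + 1) : ℕ) : ZMod p) * h2 +
      2 * F * h3
  have hprod := prod_congr rfl hrel
  rw [prod_mul_distrib, prod_mul_distrib, prod_const, card_range, ← hdet] at hprod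
  -- powers of the factors
  have h2n := two_pow hp
  have h22 : (2 : ZMod p) ^ (2 * (m + 1)) * (2 : ZMod p) ^ (2 * (m + 1)) = 1 := fact_sq hp (two_ne hp)
  have hm1 : (-((m + 1 : ℕ) : ZMod p)) ^ (2 * (m + 1)) = 1 := by
    have h4 := four_mul hp
    have h5 : (2 : ZMod p) * 2 * (-((m + 1 : ℕ) : ZMod p)) = 1 := by linear_combination -h4
    have h6 := congrArg (fun x => x ^ (2 * (m + 1))) h5
    simp only [mul_pow, one_pow] at h6
    rw [h22, one_mul] at h6
    exact h6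
  have hW2 : (∏ b ∈ range m, w (b + 1)) ^ 2 = (-1) ^ m * ((m + 1 : ℕ) : ZMod p) := by
    have hprim : IsPrimitiveRoot (psi hg 1) (2 * (m + 1)) := by
      have := psi_nat hg 1
      rw [Nat.cast_one, pow_one] at this
      rw [this]
      exact gsq hg
    rw [← prod_one_sub (psi hg) hψ hprim hK, ← prod_pow]
    have : (-1 : ZMod p) ^ m = ∏ b ∈ range m, (-1 : ZMod p) := by simp
    rw [this, ← prod_mul_distrib]
    refine prod_congr rfl fun b _ => ?_
    rw [hpos, hneg]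
    simp only [hw]
    have h7 := hinv (b + 1)
    have h8 : (g⁻¹ ^ 2) ^ (b + 1) = (g⁻¹ ^ (b + 1)) ^ 2 := by rw [← pow_mul, ← pow_mul, mul_comm]
    have h9 : (g ^ 2) ^ (b + 1) = (g ^ (b + 1)) ^ 2 := by rw [← pow_mul, ← pow_mul, mul_comm]
    rw [h8, h9]
    linear_combination (-1 + g⁻¹ ^ (b + 1) * g ^ (b + 1)) * h7
  have hWn : (∏ b ∈ range m, w (b + 1)) ^ (2 * (m + 1)) = 1 := by
    have h1 : (2 * ∏ b ∈ range m, w (b + 1)) ^ (2 * (m + 1)) = ((-1) ^ (m + 1)) ^ (m + 1) := by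
      rw [pow_mul]
      congr 1
      rw [mul_pow, hW2, pow_succ]
      linear_combination (-1) ^ m * four_mul hp
    rw [mul_pow, h2n] at h1
    have s1 : ((-1 : ZMod p) ^ (m + 1)) ^ (m + 1) = (-1) ^ (m + 1) := by
      rcases neg_one_pow_eq_or (ZMod p) (m + 1) with h | h
      · rw [h, one_pow]
      · rw [h, h]
    rw [s1] at h1
    have hne : ((-1 : ZMod p) ^ (m + 1)) ≠ 0 := by
      apply pow_ne_zero; norm_num
    apply mul_left_cancel₀ hne
    rw [h1, mul_one]
  have hfin := congrArg (fun x => x ^ (2 * (m + 1))) hprod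
  simp only [mul_pow] at hfin
  rw [prod_choose hp, hWn, mul_one, one_mul, ← pow_mul, mul_comm m, pow_mul, hm1, one_pow] at hfin
  exact hfin.symm

theorem exists_sigma (hp : p = 4 * m + 5) {g : ZMod p} (hg : IsPrimitiveRoot g (2 * (2 * (m + 1))))
    (hgen : ∀ x : ZMod p, x ≠ 0 → ∃ k : ℕ, x = g ^ k) :
    ∃ σ : Fin (2 * m + 1 + 1) ≃ ZMod (2 * (m + 1)), ∀ j : Fin (2 * m + 1 + 1),
      ((j : ℕ) + 1 : ZMod p) ^ 2 = psi hg (σ j) ∧ chi p ((j : ℕ) + 1 : ZMod p) = sg (σ j) := by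
  have hne : ∀ j : Fin (2 * m + 1 + 1), ((j : ℕ) + 1 : ZMod p) ≠ 0 := by
    intro j h
    have h1 : (((j : ℕ) + 1 : ℕ) : ZMod p) = 0 := by push_cast; exact h
    rw [ZMod.natCast_eq_zero_iff] at h1
    have := Nat.le_of_dvd (by omega) h1
    have := j.2
    omega
  choose k hk using fun j : Fin (2 * m + 1 + 1) => hgen _ (hne j)
  have h1 : ∀ j : Fin (2 * m + 1 + 1), ((j : ℕ) + 1 : ZMod p) ^ 2 = psi hg ((k j : ℕ) : ZMod (2 * (m + 1))) := by
    intro j
    rw [psi_nat, hk j, ← pow_mul, ← pow_mul, mul_comm]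
  have hinj : Function.Injective (fun j => ((k j : ℕ) : ZMod (2 * (m + 1)))) := by
    intro i j hij
    have h2 : ((i : ℕ) + 1 : ZMod p) ^ 2 = ((j : ℕ) + 1 : ZMod p) ^ 2 := by
      rw [h1, h1]
      exact congrArg _ hij
    rcases sq_eq_sq_iff_eq_or_eq_neg.1 h2 with h | h
    · have h3 : (((i : ℕ) + 1 : ℕ) : ZMod p) = (((j : ℕ) + 1 : ℕ) : ZMod p) := by push_cast; exact h
      rw [ZMod.natCast_eq_natCast_iff] at h3
      have hi := i.2
      have hj := j.2
      have := Nat.ModEq.eq_of_lt_of_lt h3 (by omega) (by omega)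
      ext
      omega
    · exfalso
      have h3 : (((i : ℕ) + 1 + ((j : ℕ) + 1) : ℕ) : ZMod p) = 0 := by
        push_cast
        linear_combination h
      rw [ZMod.natCast_eq_zero_iff] at h3
      have hi := i.2
      have hj := j.2
      have := Nat.le_of_dvd (by omega) h3
      omega
  have hbij : Function.Bijective (fun j => ((k j : ℕ) : ZMod (2 * (m + 1)))) := by
    rw [Fintype.bijective_iff_injective_and_card]
    refine ⟨hinj, ?_⟩
    rw [Fintype.card_fin, ZMod.card]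
    ring
  refine ⟨Equiv.ofBijective _ hbij, fun j => ⟨h1 j, ?_⟩⟩
  rw [Equiv.ofBijective_apply, sg_nat, hk j, map_pow, chi_g hp hg]

theorem main (hp : p = 4 * m + 5) : ∃ t : ℕ, 0 < t ∧ chi p (t : ZMod p) = 1 ∧
    ∀ d : ZMod p, chi p d = -1 →
      2 * (Matrix.of fun j k : Fin (2 * m + 1) => chi p (((j : ℕ) + 2 : ZMod p) ^ 2 + d * ((k : ℕ) + 2 : ZMod p) ^ 2)).det =
        4 ^ m * (t : ℤ) ^ 2 * ∑ x ∈ Icc 1 (2 * (m + 1)), chi p ((x : ZMod p) * ((x : ZMod p) ^ 2 + d)) := by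
  obtain ⟨g, hg, hgen⟩ := exists_prim hp
  obtain ⟨e, he, hft⟩ := exists_e (phi hg) (phi_eq hp hg) (phi_anti hp hg)
  have ht := t_pow hp hg e he hft
  obtain ⟨σ, hσ⟩ := exists_sigma hp hg hgen
  have habs : (((EM e).det.natAbs : ℕ) : ZMod p) ^ (2 * (m + 1)) = 1 := by
    rcases Int.natAbs_eq (EM e).det with h | h
    · have h2 : (((EM e).det.natAbs : ℕ) : ZMod p) = (((EM e).det : ℤ) : ZMod p) := by
        conv_rhs => rw [h]
        simp
      rw [h2, ht]
    · have h2 : (((EM e).det.natAbs : ℕ) : ZMod p) = -(((EM e).det : ℤ) : ZMod p) := by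
        conv_rhs => rw [h]
        simp
      rw [h2, Even.neg_pow (by simp), ht]
  refine ⟨(EM e).det.natAbs, ?_, chi_one_of hp habs, ?_⟩
  · rcases Nat.eq_zero_or_pos (EM e).det.natAbs with h | h
    · exfalso
      rw [h, Nat.cast_zero, zero_pow (by omega)] at habs
      exact zero_ne_one habs
    · exact h
  · intro d hd
    -- `d = g * ψ a`
    obtain ⟨a, ha⟩ : ∃ a : ZMod (2 * (m + 1)), d = g * psi hg a := by
      have hd0 : d ≠ 0 := by
        rintro rfl
        rw [MulChar.map_zero] at hd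
        norm_num at hd
      obtain ⟨k, hk⟩ := hgen d hd0
      rcases Nat.even_or_odd' k with ⟨l, h | h⟩
      · exfalso
        rw [hk, map_pow, chi_g hp hg, h, pow_mul] at hd
        norm_num at hd
      · refine ⟨(l : ZMod (2 * (m + 1))), ?_⟩
        rw [psi_nat, hk, h]
        ring
    have hphi : ∀ i : ZMod (2 * (m + 1)), chi p (psi hg i + d) = phi hg (i - a) := by
      intro i
      have e1 : psi hg i + d = psi hg a * (psi hg (i - a) + g) := by
        have : psi hg a * psi hg (i - a) = psi hg i := by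
          rw [← AddChar.map_add_eq_mul, add_sub_cancel]
        rw [ha]
        linear_combination -this
      rw [e1, map_mul, chi_psi hp hg, one_mul, phi]
    have hdet := det_eq (phi hg) (phi_anti hp hg) e he hft a σ
    rw [Int.natAbs_pow_two]
    have hL : (Matrix.of fun j k : Fin (2 * m + 1) => chi p (((j : ℕ) + 2 : ZMod p) ^ 2 + d * ((k : ℕ) + 2 : ZMod p) ^ 2)) =
        (Matrix.of fun i j : Fin (2 * m + 1) => phi hg (σ i.succ - σ j.succ - a)) := by
      ext j k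
      simp only [of_apply]
      have hj := (hσ j.succ).1
      have hk := (hσ k.succ).1
      have ej : ((j : ℕ) + 2 : ZMod p) = (((j.succ : ℕ) : ZMod p) + 1) := by
        rw [Fin.val_succ]; push_cast; ring
      have ek : ((k : ℕ) + 2 : ZMod p) = (((k.succ : ℕ) : ZMod p) + 1) := by
        rw [Fin.val_succ]; push_cast; ring
      rw [ej, ek, hj, hk, ← hphi]
      have e1 : psi hg (σ j.succ) + d * psi hg (σ k.succ) = psi hg (σ k.succ) * (psi hg (σ j.succ - σ k.succ) + d) := by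
        have : psi hg (σ k.succ) * psi hg (σ j.succ - σ k.succ) = psi hg (σ j.succ) := by
          rw [← AddChar.map_add_eq_mul, add_sub_cancel]
        linear_combination -this
      rw [e1, map_mul, chi_psi hp hg, one_mul]
    have hR : ∑ x ∈ Icc 1 (2 * (m + 1)), chi p ((x : ZMod p) * ((x : ZMod p) ^ 2 + d)) =
        ∑ i, sg i * phi hg (i - a) := by
      rw [← Equiv.sum_comp σ]
      have e1 : ∀ j : Fin (2 * m + 1 + 1), sg (σ j) * phi hg (σ j - a) =
          chi p ((((j : ℕ) + 1 : ℕ) : ZMod p) * ((((j : ℕ) + 1 : ℕ) : ZMod p) ^ 2 + d)) := by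
        intro j
        obtain ⟨h1, h2⟩ := hσ j
        push_cast
        rw [map_mul, h1, h2, hphi]
      rw [sum_congr rfl fun j _ => e1 j,
        Fin.sum_univ_eq_sum_range (fun j => chi p (((j + 1 : ℕ) : ZMod p) * (((j + 1 : ℕ) : ZMod p) ^ 2 + d))),
        range_eq_Ico, sum_Ico_add' (fun j : ℕ => chi p ((j : ZMod p) * ((j : ZMod p) ^ 2 + d))) 0 (2 * m + 1 + 1) 1]
      rfl
    rw [hL, hR]
    exact hdet

end

end Pool.Agent.V11294.Leg
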